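import Pool.Agent.W133.DQ.StF
import Pool.Agent.W133.DQ.StC

set_option autoImplicit false

open scoped ContDiff
open Set Filter Topology

namespace Pool.Agent.W347.DQ

open Pool.Agent.W133.DQ

/-- square of the distance to the origin -/
def rr (p : P2) : ℝ := p.1 ^ 2 + p.2 ^ 2

/-- radial maps -/
def Rad (φ : ℝ → ℝ) (p : P2) : P2 := (φ (rr p) * p.1, φ (rr p) * p.2)

lemma rr_nonneg (p : P2) : 0 ≤ rr p := by unfold rr; positivity

lemma rr_Rad (φ : ℝ → ℝ) (p : P2) : rr (Rad φ p) = φ (rr p) ^ 2 * rr p := by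
  unfold Rad
  simp only [rr]
  ring

lemma Rad_smooth (φ : ℝ → ℝ) (h : ∀ r, 0 ≤ r → ContDiffAt ℝ ∞ φ r) : ContDiff ℝ ∞ (Rad φ) := by
  rw [contDiff_iff_contDiffAt]
  intro p
  have hr : ContDiffAt ℝ ∞ rr p := by
    unfold rr
    fun_prop
  have h1 : ContDiffAt ℝ ∞ (fun p => φ (rr p)) p := (h _ (rr_nonneg p)).comp p hr
  exact (h1.mul contDiffAt_fst).prodMk (h1.mul contDiffAt_snd)

lemma det2 (L : P2 →L[ℝ] P2) : L.det = (L (1, 0)).1 * (L (0, 1)).2 - (L (0, 1)).1 * (L (1, 0)).2 := by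
  show LinearMap.det (L : P2 →ₗ[ℝ] P2) = _
  rw [← LinearMap.det_toMatrix (Module.Basis.finTwoProd ℝ), Matrix.det_fin_two]
  simp [LinearMap.toMatrix_apply]

lemma Rad_det (φ : ℝ → ℝ) (p : P2) (d : ℝ) (h : HasDerivAt φ d (rr p)) :
    (fderiv ℝ (Rad φ) p).det = φ (rr p) * (φ (rr p) + 2 * rr p * d) := by
  have hr : HasFDerivAt rr ((2 * p.1) • ContinuousLinearMap.fst ℝ ℝ ℝ +
      (2 * p.2) • ContinuousLinearMap.snd ℝ ℝ ℝ) p := by
    have h1 : HasFDerivAt (fun q : P2 => q.1) (ContinuousLinearMap.fst ℝ ℝ ℝ) p := hasFDerivAt_fst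
    have h2 : HasFDerivAt (fun q : P2 => q.2) (ContinuousLinearMap.snd ℝ ℝ ℝ) p := hasFDerivAt_snd
    have h3 := (h1.pow 2).add (h2.pow 2)
    refine h3.congr_fderiv ?_
    ext <;> simp
  have h1 : HasFDerivAt (fun q => φ (rr q)) (d • ((2 * p.1) • ContinuousLinearMap.fst ℝ ℝ ℝ +
      (2 * p.2) • ContinuousLinearMap.snd ℝ ℝ ℝ)) p := h.comp_hasFDerivAt p hr
  have h2 := (h1.mul (hasFDerivAt_fst (𝕜 := ℝ) (E := ℝ) (F := ℝ) (p := p))).prodMk
    (h1.mul (hasFDerivAt_snd (𝕜 := ℝ) (E := ℝ) (F := ℝ) (p := p)))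
  have h3 : HasFDerivAt (Rad φ) _ p := h2
  rw [h3.fderiv, det2]
  simp [rr]
  ring

section

variable (μ : ℝ)

/-- the contraction -/
noncomputable def aa (r : ℝ) : ℝ := Real.sqrt μ * (Real.sqrt (1 - (1 - μ) * r))⁻¹

/-- the contraction, cut off -/
noncomputable def ac (r : ℝ) : ℝ := Real.smoothTransition ((1 + μ - r) / (μ / 2)) * aa μ r

/-- the expansion -/
noncomputable def bb (r : ℝ) : ℝ := (Real.sqrt (μ + (1 - μ) * r))⁻¹

variable {μ} (h0 : 0 < μ) (h1 : μ < 1)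

include h0 h1

lemma aa_sq {r : ℝ} (hr : r ≤ 1) : aa μ r ^ 2 = μ / (1 - (1 - μ) * r) := by
  have hq : 0 < 1 - (1 - μ) * r := by nlinarith
  unfold aa
  rw [mul_pow, inv_pow, Real.sq_sqrt h0.le, Real.sq_sqrt hq.le, div_eq_mul_inv]

lemma bb_sq {r : ℝ} (hr : 0 ≤ r) : bb μ r ^ 2 = 1 / (μ + (1 - μ) * r) := by
  have hq : 0 < μ + (1 - μ) * r := by nlinarith
  unfold bb
  rw [inv_pow, Real.sq_sqrt hq.le, one_div]

lemma aa_pos {r : ℝ} (hr : r ≤ 1) : 0 < aa μ r := by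
  have hq : 0 < 1 - (1 - μ) * r := by nlinarith
  unfold aa
  positivity

lemma bb_pos {r : ℝ} (hr : 0 ≤ r) : 0 < bb μ r := by
  have hq : 0 < μ + (1 - μ) * r := by nlinarith
  unfold bb
  positivity

lemma aa_at {r : ℝ} (hr : r < 1 + μ) : ContDiffAt ℝ ∞ (aa μ) r := by
  have hq : 0 < 1 - (1 - μ) * r := by nlinarith
  unfold aa
  refine contDiffAt_const.mul (ContDiffAt.inv (ContDiffAt.sqrt (by fun_prop) hq.ne') ?_)
  exact (Real.sqrt_pos.2 hq).ne'

lemma ac_at (r : ℝ) : ContDiffAt ℝ ∞ (ac μ) r := by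
  rcases lt_or_ge r (1 + μ) with h | h
  · unfold ac
    refine ContDiffAt.mul ?_ (aa_at h0 h1 h)
    exact (Real.smoothTransition.contDiffAt).comp r (by fun_prop)
  · -- near `1 + μ` we use that `aa` is smooth a little further
    have hlt : 1 + μ < 1 / (1 - μ) := by
      rw [lt_div_iff₀ (by linarith)]
      nlinarith
    rcases lt_or_ge r (1 / (1 - μ)) with h' | h'
    · have hq : 0 < 1 - (1 - μ) * r := by
        rw [lt_div_iff₀ (by linarith)] at h'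
        linarith
      unfold ac
      refine ContDiffAt.mul ?_ ?_
      · exact (Real.smoothTransition.contDiffAt).comp r (by fun_prop)
      · unfold aa
        refine contDiffAt_const.mul (ContDiffAt.inv (ContDiffAt.sqrt (by fun_prop) hq.ne') ?_)
        exact (Real.sqrt_pos.2 hq).ne'
    · have h2 : ac μ =ᶠ[𝓝 r] fun _ => 0 := by
        have h3 : ∀ᶠ s in 𝓝 r, 1 + μ < s := lt_mem_nhds (lt_of_lt_of_le hlt h')
        filter_upwards [h3] with s hs
        unfold ac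
        rw [Real.smoothTransition.zero_of_nonpos, zero_mul]
        apply div_nonpos_of_nonpos_of_nonneg <;> linarith
      exact contDiffAt_const.congr_of_eventuallyEq h2

lemma ac_eq {r : ℝ} (hr : r ≤ 1 + μ / 2) : ac μ r = aa μ r := by
  unfold ac
  rw [Real.smoothTransition.one_of_one_le, one_mul]
  rw [le_div_iff₀ (by linarith)]
  linarith

lemma bb_at {r : ℝ} (hr : 0 ≤ r) : ContDiffAt ℝ ∞ (bb μ) r := by
  have hq : 0 < μ + (1 - μ) * r := by nlinarith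
  unfold bb
  exact ContDiffAt.inv (ContDiffAt.sqrt (by fun_prop) hq.ne') (Real.sqrt_pos.2 hq).ne'

lemma ac_deriv {r : ℝ} (hr : r ≤ 1) : ∃ d, 0 ≤ d ∧ HasDerivAt (ac μ) d r := by
  have hq : 0 < 1 - (1 - μ) * r := by nlinarith
  have hs : 0 < Real.sqrt (1 - (1 - μ) * r) := Real.sqrt_pos.2 hq
  have e1 : HasDerivAt (fun r : ℝ => 1 - (1 - μ) * r) (-(1 - μ)) r := by
    simpa using ((hasDerivAt_id r).const_mul (1 - μ)).const_sub 1
  have e2 := ((e1.sqrt hq.ne').inv hs.ne').const_mul (Real.sqrt μ)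
  have e3 : ac μ =ᶠ[𝓝 r] aa μ := by
    have h3 : ∀ᶠ s in 𝓝 r, s < 1 + μ / 2 := gt_mem_nhds (by linarith)
    filter_upwards [h3] with s hs
    exact ac_eq h0 h1 hs.le
  refine ⟨_, ?_, HasDerivAt.congr_of_eventuallyEq e2 e3⟩
  have : 0 ≤ 1 - μ := by linarith
  have e4 : Real.sqrt μ * (-(-(1 - μ) / (2 * Real.sqrt (1 - (1 - μ) * r))) /
      Real.sqrt (1 - (1 - μ) * r) ^ 2) = Real.sqrt μ * ((1 - μ) /
      (2 * Real.sqrt (1 - (1 - μ) * r)) / Real.sqrt (1 - (1 - μ) * r) ^ 2) := by ring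
  rw [e4]
  positivity

lemma bb_deriv {r : ℝ} (hr : 0 ≤ r) : ∃ d, 0 < bb μ r + 2 * r * d ∧ HasDerivAt (bb μ) d r := by
  have hq : 0 < μ + (1 - μ) * r := by nlinarith
  have hs : 0 < Real.sqrt (μ + (1 - μ) * r) := Real.sqrt_pos.2 hq
  have e1 : HasDerivAt (fun r : ℝ => μ + (1 - μ) * r) (1 - μ) r := by
    simpa using ((hasDerivAt_id r).const_mul (1 - μ)).const_add μ
  refine ⟨_, ?_, (e1.sqrt hq.ne').inv hs.ne'⟩
  unfold bb
  obtain ⟨s, hsdef⟩ : ∃ s, s = Real.sqrt (μ + (1 - μ) * r) := ⟨_, rfl⟩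
  have hs2 : s ^ 2 = μ + (1 - μ) * r := by rw [hsdef]; exact Real.sq_sqrt hq.le
  rw [← hsdef] at hs ⊢
  have : s⁻¹ + 2 * r * (-((1 - μ) / (2 * s)) / s ^ 2) = (s ^ 2 - (1 - μ) * r) / (s ^ 3) := by
    field_simp
    ring
  rw [this, hs2]
  have : μ + (1 - μ) * r - (1 - μ) * r = μ := by ring
  rw [this]
  positivity

/-- the displacement -/
noncomputable def gd : Equiv.Perm DD where
  toFun p := ⟨Rad (aa μ) p.1, by
    have h2 := rr_Rad (aa μ) p.1
    have hr : rr p.1 ≤ 1 := p.2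
    have hr0 := rr_nonneg p.1
    show rr (Rad (aa μ) p.1) ≤ 1
    have hq : 0 < 1 - (1 - μ) * rr p.1 := by nlinarith
    rw [h2, aa_sq h0 h1 hr, div_mul_eq_mul_div, div_le_one hq]
    nlinarith⟩
  invFun p := ⟨Rad (bb μ) p.1, by
    have h2 := rr_Rad (bb μ) p.1
    have hr : rr p.1 ≤ 1 := p.2
    have hr0 := rr_nonneg p.1
    show rr (Rad (bb μ) p.1) ≤ 1
    have hq : 0 < μ + (1 - μ) * rr p.1 := by nlinarith
    rw [h2, bb_sq h0 h1 hr0, div_mul_eq_mul_div, div_le_one hq]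
    nlinarith⟩
  left_inv p := by
    have hr : rr p.1 ≤ 1 := p.2
    have hr0 := rr_nonneg p.1
    have hq : 0 < 1 - (1 - μ) * rr p.1 := by nlinarith
    have ha := aa_pos h0 h1 hr
    have hrr := rr_Rad (aa μ) p.1
    have hb := bb_pos h0 h1 (rr_nonneg (Rad (aa μ) p.1))
    have key : bb μ (rr (Rad (aa μ) p.1)) * aa μ (rr p.1) = 1 := by
      have h3 : (bb μ (rr (Rad (aa μ) p.1)) * aa μ (rr p.1)) ^ 2 = 1 ^ 2 := by
        rw [mul_pow, bb_sq h0 h1 (rr_nonneg _), hrr, aa_sq h0 h1 hr]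
        field_simp
        ring
      exact (pow_left_inj₀ (by positivity) zero_le_one two_ne_zero).1 h3
    apply Subtype.ext
    show Rad (bb μ) (Rad (aa μ) p.1) = p.1
    have e : Rad (bb μ) (Rad (aa μ) p.1) =
      ((bb μ (rr (Rad (aa μ) p.1)) * aa μ (rr p.1)) * p.1.1,
        (bb μ (rr (Rad (aa μ) p.1)) * aa μ (rr p.1)) * p.1.2) := by
      rw [Rad]
      simp only [Rad, mul_assoc]
    rw [e, key, one_mul, one_mul]
  right_inv p := by
    have hr : rr p.1 ≤ 1 := p.2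
    have hr0 := rr_nonneg p.1
    have hq : 0 < μ + (1 - μ) * rr p.1 := by nlinarith
    have hb := bb_pos h0 h1 hr0
    have hrr := rr_Rad (bb μ) p.1
    have hr' : rr (Rad (bb μ) p.1) ≤ 1 := by
      rw [hrr, bb_sq h0 h1 hr0, div_mul_eq_mul_div, div_le_one hq]
      nlinarith
    have ha := aa_pos h0 h1 hr'
    have key : aa μ (rr (Rad (bb μ) p.1)) * bb μ (rr p.1) = 1 := by
      have h3 : (aa μ (rr (Rad (bb μ) p.1)) * bb μ (rr p.1)) ^ 2 = 1 ^ 2 := by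
        rw [mul_pow, aa_sq h0 h1 hr', hrr, bb_sq h0 h1 hr0]
        have e0 : 1 - (1 - μ) * (1 / (μ + (1 - μ) * rr p.1) * rr p.1) =
          μ / (μ + (1 - μ) * rr p.1) := by
          field_simp
          ring
        rw [e0]
        field_simp
      exact (pow_left_inj₀ (by positivity) zero_le_one two_ne_zero).1 h3
    apply Subtype.ext
    show Rad (aa μ) (Rad (bb μ) p.1) = p.1
    have e : Rad (aa μ) (Rad (bb μ) p.1) =
      ((aa μ (rr (Rad (bb μ) p.1)) * bb μ (rr p.1)) * p.1.1,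
        (aa μ (rr (Rad (bb μ) p.1)) * bb μ (rr p.1)) * p.1.2) := by
      rw [Rad]
      simp only [Rad, mul_assoc]
    rw [e, key, one_mul, one_mul]

lemma gd_mem : gd h0 h1 ∈ GG := by
  refine ⟨⟨Rad (ac μ), Rad_smooth _ fun r _ => ac_at h0 h1 r, fun p => ?_, fun p => ?_⟩,
    ⟨Rad (bb μ), Rad_smooth _ fun r hr => bb_at h0 h1 hr, fun p => rfl, fun p => ?_⟩, ?_⟩
  · have hr : rr p.1 ≤ 1 := p.2
    show Rad (aa μ) p.1 = Rad (ac μ) p.1
    unfold Rad
    rw [ac_eq h0 h1 (by linarith)]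
  · have hr : rr p.1 ≤ 1 := p.2
    have hr0 := rr_nonneg p.1
    obtain ⟨d, hd0, hd⟩ := ac_deriv h0 h1 hr
    rw [Rad_det _ _ d hd, ac_eq h0 h1 (by linarith)]
    have := aa_pos h0 h1 hr
    positivity
  · have hr0 := rr_nonneg p.1
    obtain ⟨d, hd0, hd⟩ := bb_deriv h0 h1 hr0
    rw [Rad_det _ _ d hd]
    exact mul_pos (bb_pos h0 h1 hr0) hd0
  · apply Subtype.ext
    show Rad (aa μ) 0 = 0
    unfold Rad
    simp

lemma gd_nq (p : DD) : nq (gd h0 h1 p) = μ * nq p / (1 - (1 - μ) * nq p) := by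
  have hr : rr p.1 ≤ 1 := p.2
  have h2 := rr_Rad (aa μ) p.1
  rw [aa_sq h0 h1 hr, div_mul_eq_mul_div] at h2
  exact h2

end

theorem disp (hA2 : S_A2) : S_DISP := by
  intro μ hμ x hx y hy
  obtain ⟨⟨hxG, e1, he1, hx1⟩, ⟨-, e2, he2, hx2⟩⟩ := hx
  obtain ⟨⟨hyG, e3, he3, hy1⟩, ⟨-, e4, he4, hy2⟩⟩ := hy
  obtain ⟨ε, hε, hεh, l1, l2, l3, l4⟩ : ∃ ε : ℝ, 0 < ε ∧ ε ≤ 1 / 4 ∧ ε < e1 ∧ ε < e2 ∧ ε < e3 ∧
      ε < e4 := by
    refine ⟨min (1 / 4) (min (min e1 e2) (min e3 e4) / 2), ?_, min_le_left _ _, ?_, ?_, ?_, ?_⟩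
    · refine lt_min (by norm_num) (half_pos ?_)
      exact lt_min (lt_min he1 he2) (lt_min he3 he4)
    all_goals
      have m0 : 0 < min (min e1 e2) (min e3 e4) := lt_min (lt_min he1 he2) (lt_min he3 he4)
      have m1 := min_le_left (min e1 e2) (min e3 e4)
      have m2 := min_le_right (min e1 e2) (min e3 e4)
      have m3 := min_le_left e1 e2
      have m4 := min_le_right e1 e2
      have m5 := min_le_left e3 e4
      have m6 := min_le_right e3 e4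
      have m7 := min_le_right (1 / 4) (min (min e1 e2) (min e3 e4) / 2)
      linarith
  let K : Subgroup (Equiv.Perm DD) :=
    { carrier := {f | f ∈ GG ∧ ∀ p : DD, (nq p ≤ ε ∨ 1 - ε ≤ nq p) → f p = p}
      mul_mem' := by
        rintro f g ⟨hf, hf'⟩ ⟨hg, hg'⟩
        refine ⟨GG.mul_mem hf hg, fun p hp => ?_⟩
        rw [Equiv.Perm.mul_apply, hg' p hp, hf' p hp]
      one_mem' := ⟨GG.one_mem, fun p _ => rfl⟩
      inv_mem' := by
        rintro f ⟨hf, hf'⟩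
        exact ⟨GG.inv_mem hf, fun p hp => by rw [Equiv.Perm.inv_eq_iff_eq, hf' p hp]⟩ }
  have hK : ∀ f, f ∈ K ↔ f ∈ GG ∧ ∀ p : DD, (nq p ≤ ε ∨ 1 - ε ≤ nq p) → f p = p :=
    fun f => Iff.rfl
  have hμ0 : 0 < ε ^ 2 / 2 := by positivity
  have hμ1 : ε ^ 2 / 2 < 1 := by nlinarith
  have hgK : ∀ p : DD, nq p ≤ 1 - ε → nq (gd hμ0 hμ1 p) < ε := by
    intro p hp
    have hr0 : 0 ≤ nq p := rr_nonneg p.1
    have hq : 0 < 1 - (1 - ε ^ 2 / 2) * nq p := by nlinarith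
    rw [gd_nq, div_lt_iff₀ hq]
    have h2 : ε ≤ 1 - (1 - ε ^ 2 / 2) * nq p := by nlinarith
    have h3 : ε ^ 2 / 2 * nq p ≤ ε ^ 2 / 2 := by nlinarith
    nlinarith
  have hgk : ∀ k : ℕ, 1 ≤ k → ∀ p : DD, nq p ≤ 1 - ε → nq ((gd hμ0 hμ1 ^ k) p) < ε := by
    intro k hk
    induction k, hk using Nat.le_induction with
    | base => intro p hp; rw [pow_one]; exact hgK p hp
    | succ k hk ih =>
      intro p hp
      rw [pow_succ', Equiv.Perm.mul_apply]
      exact hgK _ (by linarith [ih p hp])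
  have hcomm : ∀ k : ℕ, 1 ≤ k → ∀ a ∈ K, ∀ b ∈ K,
      Commute (gd hμ0 hμ1 ^ k * a * (gd hμ0 hμ1 ^ k)⁻¹) b := by
    intro k hk a ha b hb
    rw [hK] at ha hb
    obtain ⟨G, hG⟩ : ∃ G, G = gd hμ0 hμ1 ^ k := ⟨_, rfl⟩
    obtain ⟨c, hc⟩ : ∃ c, c = G * a * G⁻¹ := ⟨_, rfl⟩
    rw [← hG, ← hc]
    have c1 : ∀ p : DD, ε ≤ nq p → c p = p := by
      intro p hp
      rw [hc, Equiv.Perm.mul_apply, Equiv.Perm.mul_apply]
      have hq : a (G⁻¹ p) = G⁻¹ p := by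
        by_contra hne
        have h2 : nq (G⁻¹ p) < 1 - ε := by
          by_contra h3
          push Not at h3
          exact hne (ha.2 _ (Or.inr h3))
        have h3 := hgk k hk _ h2.le
        rw [← hG, show G (G⁻¹ p) = p from G.apply_symm_apply p] at h3
        linarith
      rw [hq]
      exact G.apply_symm_apply p
    have c2 : ∀ p : DD, nq p < ε → nq (c p) < ε := by
      intro p hp
      by_contra h
      push Not at h
      have h2 := c.injective (c1 _ h)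
      rw [h2] at h
      linarith
    have b1 : ∀ p : DD, ε ≤ nq p → ε ≤ nq (b p) := by
      intro p hp
      by_contra h
      push Not at h
      have h2 := b.injective (hb.2 _ (Or.inl h.le))
      rw [h2] at h
      linarith
    apply Equiv.ext
    intro p
    rw [Equiv.Perm.mul_apply, Equiv.Perm.mul_apply]
    rcases lt_or_ge (nq p) ε with h | h
    · rw [hb.2 p (Or.inl h.le), hb.2 _ (Or.inl (c2 p h).le)]
    · rw [c1 p h, c1 _ (b1 p h)]
  have hadd := hA2 (Equiv.Perm DD) GG K μ (gd hμ0 hμ1) hμ (fun f hf => hf.1) (gd_mem hμ0 hμ1) hcomm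
  refine hadd x ⟨hxG, fun p hp => ?_⟩ y ⟨hyG, fun p hp => ?_⟩
  · rcases hp with hp | hp
    · exact hx2 p (by linarith)
    · exact hx1 p (by linarith)
  · rcases hp with hp | hp
    · exact hy2 p (by linarith)
    · exact hy1 p (by linarith)

end Pool.Agent.W347.DQ
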